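import Pool.Agent.H57.BD.Stmts

set_option autoImplicit false

namespace Pool.BD

namespace PR

theorem dep_mem {lev : ℕ → ℕ} {S : Finset ℕ} (h : S.Nonempty) : ∃ c ∈ S, lev c = dep lev S := by
  obtain ⟨c, hc⟩ := h
  have : (dep lev S) ∈ {n | ∃ c ∈ S, lev c = n} := Nat.sInf_mem ⟨lev c, c, hc, rfl⟩
  exact this

theorem dep_le {lev : ℕ → ℕ} {S : Finset ℕ} {c : ℕ} (h : c ∈ S) : dep lev S ≤ lev c :=
  Nat.sInf_le ⟨c, h, rfl⟩

theorem mem_upP {lev : ℕ → ℕ} {S : Finset ℕ} {c : ℕ} :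
    c ∈ upP lev S ↔ c ∈ S ∧ lev c = dep lev S + 1 := by
  unfold upP
  simp only [Finset.mem_filter]

theorem mem_upF {F : Finset (Finset ℕ)} {lev : ℕ → ℕ} {S : Finset ℕ} (hS : S ∈ F)
    (h : (upP lev S).Nonempty) : upP lev S ∈ upF F lev (dep lev S) := by
  unfold upF
  rw [Finset.mem_filter, Finset.mem_image]
  exact ⟨⟨S, Finset.mem_filter.2 ⟨hS, rfl⟩, rfl⟩, h⟩

/-- the window of one member -/
theorem win (h2 : STWOStmt) {F : Finset (Finset ℕ)} {lev r : ℕ → ℕ} {N : ℕ} (hb : Base F lev r N)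
    {S : Finset ℕ} (hS : S ∈ F) (x : ℕ) (hx : (upP lev S).Nonempty → x ∈ upP lev S) :
    ∃ lo hi : ℕ, (∀ c ∈ upP lev S, x < c → lo ≤ c ∧ c ≤ hi) ∧
      (∀ e ∈ F.biUnion id, lev e < dep lev S + 1 → lo ≤ e → e ≤ hi → False) ∧
      (∀ b b', b ≤ b' → b' < N → ¬ ((lo ≤ b ∧ b ≤ hi) ↔ (lo ≤ b' ∧ b' ≤ hi)) →
        ∃ e ∈ F.biUnion id, lev e ≤ dep lev S + 1 ∧ b ≤ e ∧ e ≤ b') ∧
      (lo ≤ hi → (upP lev S).Nonempty ∧ lo = x + 1) := by
  classical
  by_cases hne : (upP lev S).Nonempty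
  swap
  · refine ⟨1, 0, ?_, ?_, ?_, ?_⟩
    · intro c hc
      exact absurd ⟨c, hc⟩ hne
    · intro e _ _ h1 h2
      omega
    · intro b b' _ _ h
      exact absurd (by constructor <;> (intro; omega)) h
    · intro h
      omega
  have hxm := hx hne
  rw [mem_upP] at hxm
  have hxE : x ∈ F.biUnion id := Finset.mem_biUnion.2 ⟨S, hS, hxm.1⟩
  by_cases hE : ∃ e, e ∈ F.biUnion id ∧ lev e ≤ dep lev S ∧ x < e
  · have hmin := Nat.find_spec hE
    have hmin' : ∀ e, e ∈ F.biUnion id → lev e ≤ dep lev S → x < e → Nat.find hE ≤ e :=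
      fun e h1 h2 h3 => Nat.find_min' hE ⟨h1, h2, h3⟩
    generalize Nat.find hE = e0 at hmin hmin'
    obtain ⟨he0, hl0, hx0⟩ := hmin
    refine ⟨x + 1, e0 - 1, ?_, ?_, ?_, ?_⟩
    · intro c hc hxc
      rw [mem_upP] at hc
      refine ⟨hxc, ?_⟩
      have hlt : ¬ (x < e0 ∧ e0 < c) := by
        obtain ⟨S0, hS0, heS0⟩ := Finset.mem_biUnion.1 he0
        exact h2 F lev hb.star hb.lev (dep lev S) S hS (fun c hc => dep_le hc) x hxm.1 c hc.1 hxm.2 hc.2
          S0 hS0 e0 heS0 hl0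
      have hne0 : c ≠ e0 := by
        rintro rfl
        omega
      omega
    · intro e he hle h1 h2
      have := hmin' e he (by omega) (by omega)
      omega
    · intro b b' hbb hbN h
      by_cases hbx : b ≤ x
      · by_cases hbx' : x ≤ b'
        · exact ⟨x, hxE, by omega, hbx, hbx'⟩
        · exact absurd (by constructor <;> (intro; omega)) h
      · by_cases hb0 : b < e0
        · by_cases hb0' : e0 ≤ b'
          · exact ⟨e0, he0, by omega, by omega, hb0'⟩
          · exact absurd (by constructor <;> (intro; omega)) h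
        · exact absurd (by constructor <;> (intro; omega)) h
    · intro _
      exact ⟨hne, rfl⟩
  · refine ⟨x + 1, N, ?_, ?_, ?_, ?_⟩
    · intro c hc hxc
      rw [mem_upP] at hc
      exact ⟨hxc, (hb.N c (Finset.mem_biUnion.2 ⟨S, hS, hc.1⟩)).le⟩
    · intro e he hle h1 h2
      exact hE ⟨e, he, by omega, by omega⟩
    · intro b b' hbb hbN h
      by_cases hbx : b ≤ x
      · by_cases hbx' : x ≤ b'
        · exact ⟨x, hxE, by omega, hbx, hbx'⟩
        · exact absurd (by constructor <;> (intro; omega)) h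
      · exact absurd (by constructor <;> (intro; omega)) h
    · intro _
      exact ⟨hne, rfl⟩

end PR

open PR in
theorem pr (h2 : STWOStmt) (hU : UPFStmt) (hC : TYPCStmt) : PRStmt := by
  intro F lev r N hb x P s B hB hx hP1 hP2 hs hvis hnc
  obtain ⟨-, hU2⟩ := hU F lev hb.ne hb.star hb.lev
  have hwin : ∀ a : {S // S ∈ F}, ∃ lo hi : ℕ,
      (∀ c ∈ upP lev a.1, x (dep lev a.1) (upP lev a.1) < c → lo ≤ c ∧ c ≤ hi) ∧
      (∀ e ∈ F.biUnion id, lev e < dep lev a.1 + 1 → lo ≤ e → e ≤ hi → False) ∧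
      (∀ b b', b ≤ b' → b' < N → ¬ ((lo ≤ b ∧ b ≤ hi) ↔ (lo ≤ b' ∧ b' ≤ hi)) →
        ∃ e ∈ F.biUnion id, lev e ≤ dep lev a.1 + 1 ∧ b ≤ e ∧ e ≤ b') ∧
      (lo ≤ hi → (upP lev a.1).Nonempty ∧ lo = x (dep lev a.1) (upP lev a.1) + 1) := by
    intro a
    exact win h2 hb a.2 _ (fun hne => hx _ _ (mem_upF a.2 hne))
  choose lo hi hA hBc hCb hD using hwin
  have hpart : Part N (F.biUnion id) lev
      (fun S : {S // S ∈ F} => (upP lev S.1).filter (fun c => x (dep lev S.1) (upP lev S.1) < c))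
      lo hi (fun a => dep lev a.1 + 1) := by
    refine ⟨?_, ?_, ?_⟩
    · intro a c hc
      obtain ⟨hc1, hc2⟩ := Finset.mem_filter.1 hc
      have h3 := hA a c hc1 hc2
      rw [mem_upP] at hc1
      exact ⟨Finset.mem_biUnion.2 ⟨a.1, a.2, hc1.1⟩, hc1.2, h3.1, h3.2⟩
    · intro a e he h1 h2 h3
      exact hBc a e he h1 h2 h3
    · intro a b b' h1 h2 h3
      exact hCb a b b' h1 h2 h3
  refine ⟨lo, hi, ?_, ?_⟩
  · intro a c hc
    have := hpart.mem a c hc
    exact this.2.2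
  · refine hC {S // S ∈ F} N (F.biUnion id) lev r _ lo hi (fun a => dep lev a.1 + 1)
      (fun a => P (dep lev a.1) (upP lev a.1)) (fun c => s (lev c - 1) c) (fun n => B (n - 1))
      hb.le hb.nc hpart ?_ ?_ ?_ ?_ ?_ ?_
    · intro a h c
      obtain ⟨hne, hlo⟩ := hD a h
      have := hP1 (dep lev a.1) _ (mem_upF a.2 hne) c
      simp only [Nat.add_sub_cancel]
      rw [this, hlo]
      exact Iff.rfl
    · intro a h c
      obtain ⟨hne, hlo⟩ := hD a h
      have := hP2 (dep lev a.1) _ (mem_upF a.2 hne) c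
      simp only [Nat.add_sub_cancel]
      rw [this, hlo]
      exact Iff.rfl
    · intro n
      exact hB _
    · intro c _
      exact hs _ _
    · intro a c hc hl h1 h2
      obtain ⟨hne, hlo⟩ := hD a (h1.trans h2)
      have hl' : lev c = dep lev a.1 + 1 := hl
      have hcm : c ∈ (upF F lev (dep lev a.1)).biUnion id := by
        rw [(hU2 (dep lev a.1)).2.2, Finset.mem_filter]
        exact ⟨hc, hl'⟩
      have hxc : x (dep lev a.1) (upP lev a.1) < c := by omega
      have := hvis (dep lev a.1) _ (mem_upF a.2 hne) c hcm hxc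
      have e1 : lev c - 1 = dep lev a.1 := by omega
      simp only [e1]
      rw [← this, Finset.mem_filter]
      exact ⟨fun h => h.1, fun h => ⟨h, hxc⟩⟩
    · intro c hc c' hc' hl hlt h1 h2
      by_cases h0 : lev c = 0
      · obtain ⟨S0, hS0, hcS0⟩ := Finset.mem_biUnion.1 hc
        obtain ⟨S1, hS1, hcS1⟩ := Finset.mem_biUnion.1 hc'
        have := hb.lev.zero S1 hS1 c' hcS1 (by omega) S0 hS0 c hcS0
        omega
      · have e1 : lev c' - 1 = lev c - 1 := by omega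
        simp only [e1] at h1 h2
        refine hnc (lev c - 1) c ?_ c' ?_ hlt h1 h2
        · rw [(hU2 (lev c - 1)).2.2, Finset.mem_filter]
          exact ⟨hc, by omega⟩
        · rw [(hU2 (lev c - 1)).2.2, Finset.mem_filter]
          exact ⟨hc', by omega⟩

end Pool.BD
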