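import Pool.Agent.H57.BD.Stmts

set_option autoImplicit false

namespace Pool.BD

namespace UPF

theorem dep_mem {lev : ℕ → ℕ} {S : Finset ℕ} (h : S.Nonempty) : ∃ c ∈ S, lev c = dep lev S := by
  obtain ⟨c, hc⟩ := h
  have : (dep lev S) ∈ {n | ∃ c ∈ S, lev c = n} := Nat.sInf_mem ⟨lev c, c, hc, rfl⟩
  exact this

theorem dep_le {lev : ℕ → ℕ} {S : Finset ℕ} {c : ℕ} (h : c ∈ S) : dep lev S ≤ lev c :=
  Nat.sInf_le ⟨c, h, rfl⟩

theorem mem_upF {F : Finset (Finset ℕ)} {lev : ℕ → ℕ} {n : ℕ} {T : Finset ℕ} :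
    T ∈ upF F lev n ↔ (∃ S ∈ F, dep lev S = n ∧ upP lev S = T) ∧ T.Nonempty := by
  unfold upF
  simp only [Finset.mem_filter, Finset.mem_image, and_assoc]

theorem mem_upP {lev : ℕ → ℕ} {S : Finset ℕ} {c : ℕ} :
    c ∈ upP lev S ↔ c ∈ S ∧ lev c = dep lev S + 1 := by
  unfold upP
  simp only [Finset.mem_filter]

theorem mem_loP {lev : ℕ → ℕ} {S : Finset ℕ} {c : ℕ} :
    c ∈ loP lev S ↔ c ∈ S ∧ lev c = dep lev S := by
  unfold loP
  simp only [Finset.mem_filter]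

end UPF

open UPF in
theorem upf (_h1 : SONEStmt) (_h2 : STWOStmt) (h3 : STHRStmt) : UPFStmt := by
  intro F lev hne hstar hlev
  refine ⟨?_, ?_⟩
  · intro S hS
    obtain ⟨c0, hc0, hl0⟩ := dep_mem (lev := lev) (hne S hS)
    refine ⟨?_, ⟨c0, mem_loP.2 ⟨hc0, hl0⟩⟩⟩
    ext c
    rw [Finset.mem_union, mem_loP, mem_upP]
    constructor
    · intro hc
      have h1 := hlev.one S hS c0 hc0 c hc
      have h2 := dep_le (lev := lev) hc
      have : lev c = dep lev S ∨ lev c = dep lev S + 1 := by omega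
      rcases this with h | h
      · exact Or.inl ⟨hc, h⟩
      · exact Or.inr ⟨hc, h⟩
    · rintro (h | h)
      · exact h.1
      · exact h.1
  · intro n
    refine ⟨?_, ?_, ?_⟩
    · intro T hT T' hT' x hx hx' y hy hy' hxy u hu
      obtain ⟨⟨S, hS, hd, rfl⟩, -⟩ := mem_upF.1 hT
      obtain ⟨⟨S', hS', hd', rfl⟩, -⟩ := mem_upF.1 hT'
      rw [mem_upP] at hx hx' hy hy' hu
      obtain ⟨c0, hc0, hl0⟩ := dep_mem (lev := lev) (hne S' hS')
      refine h3 F lev hstar hlev n S hS ?_ S' hS' ?_ ⟨c0, hc0, by omega⟩ x hx.1 ?_ y hy.1 ?_ ?_ ?_ hxy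
        u hu.1 ?_
      · intro c hc
        have := dep_le (lev := lev) hc
        omega
      · intro c hc
        have := dep_le (lev := lev) hc
        omega
      · intro h
        exact hx' ⟨h, by omega⟩
      · intro h
        exact hy' ⟨h, by omega⟩
      · omega
      · omega
      · omega
    · intro T hT
      exact (mem_upF.1 hT).2
    · ext c
      simp only [Finset.mem_biUnion, Finset.mem_filter, id]
      constructor
      · rintro ⟨T, hT, hc⟩
        obtain ⟨⟨S, hS, hd, rfl⟩, -⟩ := mem_upF.1 hT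
        rw [mem_upP] at hc
        exact ⟨⟨S, hS, hc.1⟩, by omega⟩
      · rintro ⟨⟨S0, hS0, hc0⟩, hl⟩
        obtain ⟨S, hS, hcS, c', hc', hl'⟩ := hlev.pred S0 hS0 c hc0 (by omega)
        obtain ⟨c1, hc1, hl1⟩ := dep_mem (lev := lev) (hne S hS)
        have h1 := hlev.one S hS c1 hc1 c hcS
        have h2 := dep_le (lev := lev) hc'
        have hcu : c ∈ upP lev S := mem_upP.2 ⟨hcS, by omega⟩
        exact ⟨upP lev S, mem_upF.2 ⟨⟨S, hS, by omega, rfl⟩, ⟨c, hcu⟩⟩, hcu⟩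

end Pool.BD
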